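import Pool.Agent.Q112.TT.Str

/-! Back and forth for the rich structure: embeddings of countable structures and extension of
finite partial isomorphisms to automorphisms. -/

namespace Q112TT

/-- a partial isomorphism, given by its graph -/
structure PI {A B : Type} (RA : Str A) (RB : Str B) (l : Set (A × B)) : Prop where
  E : ∀ p ∈ l, ∀ q ∈ l, (p.1 = q.1 ↔ p.2 = q.2)
  M : ∀ p ∈ l, ∀ q ∈ l, ∀ r ∈ l, (RA.M p.1 q.1 r.1 ↔ RB.M p.2 q.2 r.2)
  N : ∀ p ∈ l, ∀ q ∈ l, (RA.N p.1 q.1 ↔ RB.N p.2 q.2)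
  L : ∀ p ∈ l, (RA.L p.1 ↔ RB.L p.2)

theorem PI.symm {A B : Type} {RA : Str A} {RB : Str B} {l : Set (A × B)} (h : PI RA RB l) :
    PI RB RA (Prod.swap '' l) := by
  refine ⟨?_, ?_, ?_, ?_⟩
  · rintro _ ⟨p, hp, rfl⟩ _ ⟨q, hq, rfl⟩
    exact (h.E p hp q hq).symm
  · rintro _ ⟨p, hp, rfl⟩ _ ⟨q, hq, rfl⟩ _ ⟨r, hr, rfl⟩
    exact (h.M p hp q hq r hr).symm
  · rintro _ ⟨p, hp, rfl⟩ _ ⟨q, hq, rfl⟩
    exact (h.N p hp q hq).symm
  · rintro _ ⟨p, hp, rfl⟩
    exact (h.L p hp).symm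

theorem PI.mono {A B : Type} {RA : Str A} {RB : Str B} {l l' : Set (A × B)} (h : PI RA RB l)
    (hl : l' ⊆ l) : PI RA RB l' :=
  ⟨fun p hp q hq => h.E p (hl hp) q (hl hq), fun p hp q hq r hr => h.M p (hl hp) q (hl hq) r (hl hr),
    fun p hp q hq => h.N p (hl hp) q (hl hq), fun p hp => h.L p (hl hp)⟩

theorem forth {A : Type} {RA : Str A} {R : Str ℕ} (hRA : RA.Ok) (hR : Rich R)
    (l : Finset (A × ℕ)) (hl : PI RA R (l : Set (A × ℕ))) (a : A) :
    ∃ b, PI RA R (insert (a, b) (l : Set (A × ℕ))) := by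
  classical
  by_cases hb : ∃ b, (a, b) ∈ l
  · obtain ⟨b, hb⟩ := hb
    refine ⟨b, ?_⟩
    rwa [Set.insert_eq_of_mem (by exact_mod_cast hb)]
  · push Not at hb
    let S : Finset ℕ := l.image Prod.snd
    have hS : ∀ s : S, ∃ a', (a', (s : ℕ)) ∈ l := by
      rintro ⟨s, hs⟩
      obtain ⟨p, hp, rfl⟩ := Finset.mem_image.1 hs
      exact ⟨p.1, hp⟩
    choose c hc using hS
    let h : Option S → A := fun o => o.elim a c
    have hcmp : (RA.comap h).comap some = R.comap (fun s : S => (s : ℕ)) := by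
      rw [comap_eq_iff]
      refine ⟨fun x y z => ?_, fun x y => ?_, fun x => ?_⟩
      · exact hl.M _ (hc x) _ (hc y) _ (hc z)
      · exact hl.N _ (hc x) _ (hc y)
      · exact hl.L _ (hc x)
    obtain ⟨u, huS, hu⟩ := hR S (RA.comap h) (hRA.comap h) hcmp
    rw [comap_eq_iff] at hu
    obtain ⟨c1, c2, c3⟩ := hu
    have hrep : ∀ p ∈ insert (a, u) (l : Set (A × ℕ)), ∃ o : Option S, h o = p.1 ∧ ev u o = p.2 := by
      rintro p (rfl | hp)
      · exact ⟨none, rfl, rfl⟩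
      · have hp2 : p.2 ∈ S := Finset.mem_image_of_mem _ (by exact_mod_cast hp)
        refine ⟨some ⟨p.2, hp2⟩, ?_, rfl⟩
        exact (hl.E _ (hc ⟨p.2, hp2⟩) _ hp).2 rfl
    refine ⟨u, ?_, ?_, ?_, ?_⟩
    · rintro p (rfl | hp) q (rfl | hq)
      · simp
      · have hq2 : q.2 ∈ S := Finset.mem_image_of_mem _ (by exact_mod_cast hq)
        constructor
        · intro e
          have e' : a = q.1 := e
          exact absurd (show (a, q.2) ∈ l by rw [e']; exact_mod_cast hq) (hb q.2)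
        · intro e
          have e' : u = q.2 := e
          exact absurd (e' ▸ hq2) huS
      · have hp2 : p.2 ∈ S := Finset.mem_image_of_mem _ (by exact_mod_cast hp)
        constructor
        · intro e
          have e' : p.1 = a := e
          exact absurd (show (a, p.2) ∈ l by rw [← e']; exact_mod_cast hp) (hb p.2)
        · intro e
          have e' : p.2 = u := e
          exact absurd (e' ▸ hp2) huS
      · exact hl.E p hp q hq
    · intro p hp q hq r hr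
      obtain ⟨o1, h1, k1⟩ := hrep p hp
      obtain ⟨o2, h2, k2⟩ := hrep q hq
      obtain ⟨o3, h3, k3⟩ := hrep r hr
      rw [← h1, ← h2, ← h3, ← k1, ← k2, ← k3]
      exact c1 o1 o2 o3
    · intro p hp q hq
      obtain ⟨o1, h1, k1⟩ := hrep p hp
      obtain ⟨o2, h2, k2⟩ := hrep q hq
      rw [← h1, ← h2, ← k1, ← k2]
      exact c2 o1 o2
    · intro p hp
      obtain ⟨o1, h1, k1⟩ := hrep p hp
      rw [← h1, ← k1]
      exact c3 o1

/-- finite partial isomorphisms -/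
def FPI {A B : Type} (RA : Str A) (RB : Str B) : Type :=
  {l : Finset (A × B) // PI RA RB (l : Set (A × B))}

instance {A B : Type} (RA : Str A) (RB : Str B) : Preorder (FPI RA RB) where
  le p q := p.1 ⊆ q.1
  le_refl p := Finset.Subset.refl _
  le_trans p q r h h' := Finset.Subset.trans h h'

theorem exists_union {A B : Type} {RA : Str A} {RB : Str B} (p0 : FPI RA RB) {ι : Type}
    [Countable ι] (D : ι → Set (FPI RA RB)) (hD : ∀ i, IsCofinal (D i)) :
    ∃ U : Set (A × B), PI RA RB U ∧ (p0.1 : Set (A × B)) ⊆ U ∧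
      ∀ i, ∃ p ∈ D i, (p.1 : Set (A × B)) ⊆ U := by
  letI : Encodable ι := Encodable.ofCountable ι
  let 𝒟 : ι → Order.Cofinal (FPI RA RB) := fun i => ⟨D i, hD i⟩
  let s : ℕ → FPI RA RB := Order.sequenceOfCofinals p0 𝒟
  have hmono : Monotone s := Order.sequenceOfCofinals.monotone p0 𝒟
  have hs0 : s 0 = p0 := rfl
  refine ⟨{x | ∃ k, x ∈ (s k).1}, ⟨?_, ?_, ?_, ?_⟩, ?_, ?_⟩
  · rintro p ⟨k1, h1⟩ q ⟨k2, h2⟩
    exact (s (max k1 k2)).2.E p (by exact_mod_cast hmono (le_max_left _ _) h1) q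
      (by exact_mod_cast hmono (le_max_right _ _) h2)
  · rintro p ⟨k1, h1⟩ q ⟨k2, h2⟩ r ⟨k3, h3⟩
    exact (s (max (max k1 k2) k3)).2.M p
      (by exact_mod_cast hmono ((le_max_left _ _).trans (le_max_left _ _)) h1) q
      (by exact_mod_cast hmono ((le_max_right _ _).trans (le_max_left _ _)) h2) r
      (by exact_mod_cast hmono (le_max_right _ _) h3)
  · rintro p ⟨k1, h1⟩ q ⟨k2, h2⟩
    exact (s (max k1 k2)).2.N p (by exact_mod_cast hmono (le_max_left _ _) h1) q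
      (by exact_mod_cast hmono (le_max_right _ _) h2)
  · rintro p ⟨k1, h1⟩
    exact (s k1).2.L p (by exact_mod_cast h1)
  · intro x hx
    exact ⟨0, by rw [hs0]; exact_mod_cast hx⟩
  · intro i
    refine ⟨_, Order.sequenceOfCofinals.encode_mem p0 𝒟 i, ?_⟩
    intro x hx
    exact ⟨_, by exact_mod_cast hx⟩

theorem forth_cofinal {A : Type} {RA : Str A} {R : Str ℕ} (hRA : RA.Ok) (hR : Rich R) (a : A) :
    IsCofinal {p : FPI RA R | ∃ b, (a, b) ∈ p.1} := by
  classical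
  intro p
  obtain ⟨b, hb⟩ := forth hRA hR p.1 p.2 a
  refine ⟨⟨insert (a, b) p.1, by rw [Finset.coe_insert]; exact hb⟩, ⟨b, Finset.mem_insert_self _ _⟩,
    Finset.subset_insert _ _⟩

/-- countable structures embed in the rich structure, extending a given finite partial
isomorphism -/
theorem exists_embedding {A : Type} [Countable A] {RA : Str A} {R : Str ℕ} (hRA : RA.Ok)
    (hR : Rich R) : ∃ f : A → ℕ, (∀ x y, f x = f y → x = y) ∧
      ∀ x y z, RA.M x y z ↔ R.M (f x) (f y) (f z) := by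
  have p0 : FPI RA R := ⟨∅, by simp, by simp, by simp, by simp⟩
  obtain ⟨U, hU, -, hU2⟩ := exists_union p0 (fun a : A => {p : FPI RA R | ∃ b, (a, b) ∈ p.1})
    (fun a => forth_cofinal hRA hR a)
  have : ∀ a, ∃ b, (a, b) ∈ U := by
    intro a
    obtain ⟨p, ⟨b, hb⟩, hp⟩ := hU2 a
    exact ⟨b, hp (by exact_mod_cast hb)⟩
  choose f hf using this
  exact ⟨f, fun x y h => (hU.E _ (hf x) _ (hf y)).2 h, fun x y z => hU.M _ (hf x) _ (hf y) _ (hf z)⟩

theorem back_cofinal {R : Str ℕ} (hRo : R.Ok) (hR : Rich R) (b : ℕ) :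
    IsCofinal {p : FPI R R | ∃ a, (a, b) ∈ p.1} := by
  classical
  intro p
  have hsw : PI R R ((p.1.image Prod.swap : Finset (ℕ × ℕ)) : Set (ℕ × ℕ)) := by
    rw [Finset.coe_image]
    exact p.2.symm
  obtain ⟨a, ha⟩ := forth hRo hR _ hsw b
  have := ha.symm
  refine ⟨⟨insert (a, b) p.1, this.mono ?_⟩, ⟨a, Finset.mem_insert_self _ _⟩,
    Finset.subset_insert _ _⟩
  intro x hx
  rw [Finset.coe_insert] at hx
  rcases hx with rfl | hx
  · exact ⟨(b, a), Set.mem_insert _ _, rfl⟩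
  · refine ⟨x.swap, Set.mem_insert_of_mem _ ?_, by simp⟩
    rw [Finset.coe_image]
    exact ⟨x, hx, rfl⟩

/-- finite partial isomorphisms of the rich structure extend to automorphisms -/
theorem exists_auto {R : Str ℕ} (hRo : R.Ok) (hR : Rich R) (l : Finset (ℕ × ℕ))
    (hl : PI R R (l : Set (ℕ × ℕ))) : ∃ σ : Equiv.Perm ℕ, (∀ p ∈ l, σ p.1 = p.2) ∧
      ∀ x y z, R.M x y z ↔ R.M (σ x) (σ y) (σ z) := by
  obtain ⟨U, hU, hU1, hU2⟩ := exists_union (⟨l, hl⟩ : FPI R R)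
    (Sum.elim (fun a : ℕ => {p : FPI R R | ∃ b, (a, b) ∈ p.1})
      (fun b : ℕ => {p : FPI R R | ∃ a, (a, b) ∈ p.1}))
    (by
      rintro (a | b)
      · exact forth_cofinal hRo hR a
      · exact back_cofinal hRo hR b)
  have h1 : ∀ a, ∃ b, (a, b) ∈ U := by
    intro a
    obtain ⟨p, ⟨b, hb⟩, hp⟩ := hU2 (Sum.inl a)
    exact ⟨b, hp (by exact_mod_cast hb)⟩
  have h2 : ∀ b, ∃ a, (a, b) ∈ U := by
    intro b
    obtain ⟨p, ⟨a, ha⟩, hp⟩ := hU2 (Sum.inr b)
    exact ⟨a, hp (by exact_mod_cast ha)⟩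
  choose f hf using h1
  have hinj : Function.Injective f := fun x y h => (hU.E _ (hf x) _ (hf y)).2 h
  have hsurj : Function.Surjective f := by
    intro b
    obtain ⟨a, ha⟩ := h2 b
    exact ⟨a, (hU.E _ (hf a) _ ha).1 rfl⟩
  refine ⟨Equiv.ofBijective f ⟨hinj, hsurj⟩, ?_, fun x y z => hU.M _ (hf x) _ (hf y) _ (hf z)⟩
  intro p hp
  have hpU : p ∈ U := hU1 (by exact_mod_cast hp)
  exact (hU.E _ (hf p.1) _ hpU).1 rfl

end Q112TT
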