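import Mathlib

/-! Term operations, closed oligomorphic algebras, linear identities and terminator terms. -/

namespace Q112TT

/-- The term operations in `n` variables of the algebra with universe `A` and set `F` of basic
operations (an element of `F` is an arity `m` and an operation of that arity). -/
inductive TermOp {A : Type} (F : Set (Σ m : ℕ, (Fin m → A) → A)) (n : ℕ) :
    ((Fin n → A) → A) → Prop
  /-- a variable -/
  | var (i : Fin n) : TermOp F n fun x => x i
  /-- a basic operation applied to term operations -/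
  | app (m : ℕ) (f : (Fin m → A) → A) (hf : (⟨m, f⟩ : Σ m : ℕ, (Fin m → A) → A) ∈ F)
      (g : Fin m → (Fin n → A) → A) (hg : ∀ j, TermOp F n (g j)) :
      TermOp F n fun x => f fun j => g j x

/-- The algebra is closed oligomorphic: the set of term operations of each arity is closed in the
topology of pointwise convergence (`A` being discrete), and the permutations of `A` that are unary
term operations form a group with finitely many orbits on `n`-tuples, for every `n`. -/
def ClosedOligomorphic {A : Type} [TopologicalSpace A] [DiscreteTopology A]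
    (F : Set (Σ m : ℕ, (Fin m → A) → A)) : Prop :=
  (∀ n : ℕ, IsClosed {f : (Fin n → A) → A | TermOp F n f}) ∧
    ∃ G : Subgroup (Equiv.Perm A),
      (∀ σ : Equiv.Perm A, σ ∈ G ↔ TermOp F 1 fun x => σ (x 0)) ∧
        ∀ n : ℕ, Finite (MulAction.orbitRel.Quotient G (Fin n → A))

/-- One side of a linear identity over the symbols `S` of arities `ar`, in variables indexed by
`ℕ`: a variable, or a symbol applied to variables. -/
inductive Side (S : Type) (ar : S → ℕ) : Type
  /-- a variable -/
  | var (v : ℕ) : Side S ar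
  /-- a symbol applied to variables -/
  | app (s : S) (v : Fin (ar s) → ℕ) : Side S ar

/-- the value of a side under an interpretation of the symbols and a valuation -/
def Side.eval {S : Type} {ar : S → ℕ} {A : Type} (I : ∀ s : S, (Fin (ar s) → A) → A)
    (val : ℕ → A) : Side S ar → A
  | .var v => val v
  | .app s v => I s fun j => val (v j)

/-- the interpretation `I` of the symbols satisfies the linear identities in `E` -/
def Holds {S : Type} {ar : S → ℕ} {A : Type} (I : ∀ s : S, (Fin (ar s) → A) → A)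
    (E : Set (Side S ar × Side S ar)) : Prop :=
  ∀ e ∈ E, ∀ val : ℕ → A, e.1.eval I val = e.2.eval I val

/-- no interpretation of the symbols as projections on a set with at least two elements satisfies
the linear identities in `E` -/
def IsNontrivial {S : Type} {ar : S → ℕ} (E : Set (Side S ar × Side S ar)) : Prop :=
  ∀ (B : Type) [Nontrivial B] (p : ∀ s : S, Fin (ar s)), ¬ Holds (fun s (x : Fin (ar s) → B) => x (p s)) E

/-- the algebra with universe `A` and basic operations `F` satisfies some nontrivial set of linear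
identities; here even a finite one, with finitely many symbols -/
def SatisfiesNontrivial {A : Type} (F : Set (Σ m : ℕ, (Fin m → A) → A)) : Prop :=
  ∃ (S : Type) (_ : Finite S) (ar : S → ℕ) (E : Set (Side S ar × Side S ar)),
    E.Finite ∧ IsNontrivial E ∧
      ∃ I : ∀ s : S, (Fin (ar s) → A) → A, (∀ s, TermOp F (ar s) (I s)) ∧ Holds I E

/-- the algebra has terminator terms -/
def HasTerminatorTerms {A : Type} (F : Set (Σ m : ℕ, (Fin m → A) → A)) : Prop :=
  ∃ c c₁ c₂ c₁₁ c₁₂ c₂₁ c₂₂ : (Fin 3 → A) → A,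
    (TermOp F 3 c ∧ TermOp F 3 c₁ ∧ TermOp F 3 c₂ ∧ TermOp F 3 c₁₁ ∧ TermOp F 3 c₁₂ ∧
      TermOp F 3 c₂₁ ∧ TermOp F 3 c₂₂) ∧
    ∀ x y : A,
      c ![x, y, x] = c₁ ![x, x, y] ∧ c ![y, x, x] = c₂ ![x, x, y] ∧
      c₁ ![x, y, x] = c₁₁ ![x, x, y] ∧ c₁ ![y, x, x] = c₁₂ ![x, x, y] ∧
      c₂ ![x, y, x] = c₂₁ ![x, x, y] ∧ c₂ ![y, x, x] = c₂₂ ![x, x, y] ∧
      c₁₁ ![x, y, x] = c₁₂ ![x, y, x] ∧ c₁₁ ![y, x, x] = c₁₂ ![y, x, x] ∧
      c₂₁ ![x, y, x] = c₂₂ ![x, y, x] ∧ c₂₁ ![y, x, x] = c₂₂ ![y, x, x]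

/-- the algebra has ternary term operations `p₁, …, pₖ` with `p₁(x,y,y) = p₁(x,x,x)`,
`pᵢ(x,x,y) = pᵢ₊₁(x,y,y)` for `1 ≤ i < k` and `pₖ(x,x,y) = pₖ(y,y,y)` -/
def HasQuasiHagemannMitschke {A : Type} (F : Set (Σ m : ℕ, (Fin m → A) → A)) (k : ℕ) : Prop :=
  ∃ p : ℕ → (Fin 3 → A) → A, (∀ i, 1 ≤ i → i ≤ k → TermOp F 3 (p i)) ∧ ∀ x y : A,
    p 1 ![x, y, y] = p 1 ![x, x, x] ∧ (∀ i, 1 ≤ i → i < k → p i ![x, x, y] = p (i + 1) ![x, y, y]) ∧
      p k ![x, x, y] = p k ![y, y, y]

end Q112TT
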