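import Pool.Agent.Q112.TT.BF
import Pool.Agent.Q112.TT.Defs

/-! The algebra of all operations preserving `M` and its complement in the rich structure. -/

namespace Q112TT

/-! ### The operations -/

/-- operations preserving `M` and the complement of `M` -/
def PolM (R : Str ℕ) (n : ℕ) : Set ((Fin n → ℕ) → ℕ) :=
  {f | (∀ x y z : Fin n → ℕ, (∀ i, R.M (x i) (y i) (z i)) → R.M (f x) (f y) (f z)) ∧
    ∀ x y z : Fin n → ℕ, (∀ i, ¬ R.M (x i) (y i) (z i)) → ¬ R.M (f x) (f y) (f z)}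

/-- the basic operations of the algebra -/
def Ops (R : Str ℕ) : Set (Σ m : ℕ, (Fin m → ℕ) → ℕ) := {p | p.2 ∈ PolM R p.1}

theorem termOp_iff {R : Str ℕ} {n : ℕ} {f : (Fin n → ℕ) → ℕ} :
    TermOp (Ops R) n f ↔ f ∈ PolM R n := by
  constructor
  · intro h
    induction h with
    | var i => exact ⟨fun x y z h => h i, fun x y z h => h i⟩
    | app m f hf g hg ih =>
      have hf' : f ∈ PolM R m := hf
      exact ⟨fun x y z h => hf'.1 _ _ _ fun j => (ih j).1 _ _ _ h,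
        fun x y z h => hf'.2 _ _ _ fun j => (ih j).2 _ _ _ h⟩
  · intro h
    exact TermOp.app n f h (fun j x => x j) fun j => TermOp.var j

theorem isClosed_termOp (R : Str ℕ) (n : ℕ) :
    IsClosed {f : (Fin n → ℕ) → ℕ | TermOp (Ops R) n f} := by
  have he : {f : (Fin n → ℕ) → ℕ | TermOp (Ops R) n f} =
      (⋂ (x : Fin n → ℕ) (y : Fin n → ℕ) (z : Fin n → ℕ), {f : (Fin n → ℕ) → ℕ |
        (∀ i, R.M (x i) (y i) (z i)) → R.M (f x) (f y) (f z)}) ∩
      ⋂ (x : Fin n → ℕ) (y : Fin n → ℕ) (z : Fin n → ℕ), {f : (Fin n → ℕ) → ℕ |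
        (∀ i, ¬ R.M (x i) (y i) (z i)) → ¬ R.M (f x) (f y) (f z)} := by
    ext f
    simp only [Set.mem_setOf_eq, termOp_iff, PolM, Set.mem_inter_iff, Set.mem_iInter]
  have hcont : ∀ x y z : Fin n → ℕ, Continuous fun f : (Fin n → ℕ) → ℕ => (f x, f y, f z) := by
    intro x y z
    exact (continuous_apply x).prodMk ((continuous_apply y).prodMk (continuous_apply z))
  rw [he]
  refine IsClosed.inter ?_ ?_
  · refine isClosed_iInter fun x => isClosed_iInter fun y => isClosed_iInter fun z => ?_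
    exact (isClosed_discrete {t : ℕ × ℕ × ℕ | (∀ i, R.M (x i) (y i) (z i)) →
      R.M t.1 t.2.1 t.2.2}).preimage (hcont x y z)
  · refine isClosed_iInter fun x => isClosed_iInter fun y => isClosed_iInter fun z => ?_
    exact (isClosed_discrete {t : ℕ × ℕ × ℕ | (∀ i, ¬ R.M (x i) (y i) (z i)) →
      ¬ R.M t.1 t.2.1 t.2.2}).preimage (hcont x y z)

/-- the automorphisms of `M` -/
def AutM (R : Str ℕ) : Subgroup (Equiv.Perm ℕ) where
  carrier := {σ | ∀ x y z, R.M x y z ↔ R.M (σ x) (σ y) (σ z)}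
  mul_mem' := by
    intro σ τ hσ hτ x y z
    exact (hτ x y z).trans (hσ _ _ _)
  one_mem' := fun _ _ _ => Iff.rfl
  inv_mem' := by
    intro σ hσ x y z
    have := hσ (σ⁻¹ x) (σ⁻¹ y) (σ⁻¹ z)
    simpa using this.symm

theorem mem_autM_iff {R : Str ℕ} (σ : Equiv.Perm ℕ) :
    σ ∈ AutM R ↔ TermOp (Ops R) 1 fun x => σ (x 0) := by
  rw [termOp_iff]
  constructor
  · intro h
    exact ⟨fun x y z k => (h _ _ _).1 (k 0), fun x y z k k' => k 0 ((h _ _ _).2 k')⟩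
  · intro h x y z
    constructor
    · intro k
      exact h.1 (fun _ => x) (fun _ => y) (fun _ => z) fun _ => k
    · intro k
      by_contra k'
      exact h.2 (fun _ => x) (fun _ => y) (fun _ => z) (fun _ => k') k

/-- the type of a tuple -/
def tp (R : Str ℕ) {n : ℕ} (t : Fin n → ℕ) : (Fin n → Fin n → Prop) × Str (Fin n) :=
  (fun i j => t i = t j, R.comap t)

theorem orbits_finite {R : Str ℕ} (hRo : R.Ok) (hR : Rich R) (n : ℕ) :
    Finite (MulAction.orbitRel.Quotient (AutM R) (Fin n → ℕ)) := by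
  classical
  let f : Set.range (tp R (n := n)) → MulAction.orbitRel.Quotient (AutM R) (Fin n → ℕ) :=
    fun s => Quotient.mk'' s.2.choose
  refine Finite.of_surjective f ?_
  intro q
  induction q using Quotient.inductionOn' with
  | h t =>
    refine ⟨⟨tp R t, t, rfl⟩, ?_⟩
    have hs : ∃ t' : Fin n → ℕ, tp R t' = tp R t := ⟨t, rfl⟩
    show Quotient.mk'' (Exists.choose _) = _
    generalize_proofs hh
    have ht' := hh.choose_spec
    set t' := hh.choose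
    refine Quotient.sound' ?_
    rw [MulAction.orbitRel_apply]
    have h1 : ∀ i j, (t i = t j) = (t' i = t' j) := fun i j =>
      (congrFun (congrFun (congrArg Prod.fst ht') i) j).symm
    have h2 : R.comap t = R.comap t' := (congrArg Prod.snd ht').symm
    rw [comap_eq_iff] at h2
    obtain ⟨c1, c2, c3⟩ := h2
    have hl : PI R R ((Finset.univ.image fun i : Fin n => (t i, t' i) : Finset (ℕ × ℕ)) :
        Set (ℕ × ℕ)) := by
      have hm : ∀ p ∈ ((Finset.univ.image fun i : Fin n => (t i, t' i) : Finset (ℕ × ℕ)) :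
          Set (ℕ × ℕ)), ∃ i, (t i, t' i) = p := by
        intro p hp
        rw [Finset.mem_coe, Finset.mem_image] at hp
        obtain ⟨i, -, h⟩ := hp
        exact ⟨i, h⟩
      refine ⟨?_, ?_, ?_, ?_⟩
      · intro p hp q hq
        obtain ⟨i, rfl⟩ := hm p hp
        obtain ⟨j, rfl⟩ := hm q hq
        exact iff_of_eq (h1 i j)
      · intro p hp q hq r hr
        obtain ⟨i, rfl⟩ := hm p hp
        obtain ⟨j, rfl⟩ := hm q hq
        obtain ⟨k, rfl⟩ := hm r hr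
        exact c1 i j k
      · intro p hp q hq
        obtain ⟨i, rfl⟩ := hm p hp
        obtain ⟨j, rfl⟩ := hm q hq
        exact c2 i j
      · intro p hp
        obtain ⟨i, rfl⟩ := hm p hp
        exact c3 i
    obtain ⟨σ, hσ1, hσ2⟩ := exists_auto hRo hR _ hl
    refine ⟨⟨σ, hσ2⟩, ?_⟩
    funext i
    exact hσ1 (t i, t' i) (Finset.mem_image_of_mem _ (Finset.mem_univ i))

theorem closedOligomorphic {R : Str ℕ} (hRo : R.Ok) (hR : Rich R) : ClosedOligomorphic (Ops R) :=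
  ⟨isClosed_termOp R, AutM R, mem_autM_iff, orbits_finite hRo hR⟩

/-! ### No terminator terms -/

/-- one-in-three satisfiability on two elements -/
def oneInThree : Str Bool where
  M x y z := (x = true ∧ y = false ∧ z = false) ∨ (x = false ∧ y = true ∧ z = false) ∨
    (x = false ∧ y = false ∧ z = true)
  N x y := x = y
  L x := x = true

theorem oneInThree_ok : oneInThree.Ok := by
  refine ⟨?_, ?_, ?_⟩
  · intro a a' b d
    simp only [oneInThree]
    revert a a' b d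
    decide
  · intro v a a'
    simp only [oneInThree]
    revert v a a'
    decide
  · intro u a a'
    simp only [oneInThree]
    revert u a a'
    decide

theorem not_terminator {R : Str ℕ} (hRo : R.Ok) (hR : Rich R) : ¬ HasTerminatorTerms (Ops R) := by
  rintro ⟨c, c1, c2, c11, c12, c21, c22, ⟨t, t1, t2, t11, t12, t21, t22⟩, hid⟩
  obtain ⟨f, -, hf⟩ := exists_embedding oneInThree_ok hR
  set x := f false
  set y := f true
  have m1 : R.M x x y := (hf _ _ _).1 (by simp [oneInThree])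
  have m2 : R.M x y x := (hf _ _ _).1 (by simp [oneInThree])
  have m3 : R.M y x x := (hf _ _ _).1 (by simp [oneInThree])
  have key : ∀ g : (Fin 3 → ℕ) → ℕ, TermOp (Ops R) 3 g →
      R.M (g ![x, x, y]) (g ![x, y, x]) (g ![y, x, x]) := by
    intro g hg
    refine (termOp_iff.1 hg).1 _ _ _ fun i => ?_
    fin_cases i
    · exact m1
    · exact m2
    · exact m3
  obtain ⟨e1, e2, e3, e4, e5, e6, e7, e8, e9, e10⟩ := hid x y
  have k := key c t
  have k1 := key c1 t1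
  have k2 := key c2 t2
  have k11 := key c11 t11
  have k12 := key c12 t12
  have k21 := key c21 t21
  have k22 := key c22 t22
  rw [e1, e2] at k
  rw [e3, e4] at k1
  rw [e5, e6] at k2
  rw [e7, e8] at k11
  rw [e9, e10] at k21
  exact hRo.ff _ _ _ k (hRo.ll _ _ _ k1 (hRo.nn _ _ _ _ k11 k12))
    (hRo.ll _ _ _ k2 (hRo.nn _ _ _ _ k21 k22))

/-! ### Quasi Hagemann-Mitschke terms -/

/-- normal form of an argument triple at index `i` -/
def nf (i a b c : ℕ) : ℕ × ℕ × ℕ × ℕ :=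
  if b = c ∧ i = 1 then (1, a, a, a)
  else if a = b ∧ i = 8 then (1, c, c, c)
  else if a = b ∧ b = c then (1, a, a, a)
  else if a = b then (i, a, a, c)
  else if b = c then (i - 1, a, a, c)
  else (i, a, b, c)

/-- the projection avoiding index `j` -/
def vj (j : ℕ) (κ : ℕ × ℕ × ℕ × ℕ) : ℕ := if κ.1 < j then κ.2.1 else κ.2.2.2

theorem vj_nf {i j : ℕ} (hi1 : 1 ≤ i) (hi8 : i ≤ 8) (hj1 : 1 ≤ j) (hj8 : j ≤ 8) (hij : i ≠ j)
    (a b c : ℕ) : vj j (nf i a b c) = if i < j then a else c := by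
  unfold nf vj
  split_ifs <;> simp_all <;> omega

/-- the ternary relation of the free structure, index `i` -/
def MI (R : Str ℕ) (i : ℕ) (κ₁ κ₂ κ₃ : ℕ × ℕ × ℕ × ℕ) : Prop :=
  ∃ a b c a' b' c' a'' b'' c'', R.M a a' a'' ∧ R.M b b' b'' ∧ R.M c c' c'' ∧
    nf i a b c = κ₁ ∧ nf i a' b' c' = κ₂ ∧ nf i a'' b'' c'' = κ₃

theorem MI.proj {R : Str ℕ} {i j : ℕ} (hi1 : 1 ≤ i) (hi8 : i ≤ 8) (hj1 : 1 ≤ j) (hj8 : j ≤ 8)
    (hij : j ≠ i) {κ₁ κ₂ κ₃ : ℕ × ℕ × ℕ × ℕ} (h : MI R i κ₁ κ₂ κ₃) :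
    R.M (vj j κ₁) (vj j κ₂) (vj j κ₃) := by
  obtain ⟨a, b, c, a', b', c', a'', b'', c'', h1, h2, h3, rfl, rfl, rfl⟩ := h
  rw [vj_nf hi1 hi8 hj1 hj8 hij.symm, vj_nf hi1 hi8 hj1 hj8 hij.symm,
    vj_nf hi1 hi8 hj1 hj8 hij.symm]
  split_ifs
  · exact h1
  · exact h3

/-- the free structure -/
def FS (R : Str ℕ) : Str (ℕ × ℕ × ℕ × ℕ) where
  M κ₁ κ₂ κ₃ := ∃ i, 1 ≤ i ∧ i ≤ 8 ∧ MI R i κ₁ κ₂ κ₃
  N κ κ' := ∃ β δ, (∃ i, 1 ≤ i ∧ i ≤ 8 ∧ MI R i κ β δ) ∧ ∃ i, 1 ≤ i ∧ i ≤ 8 ∧ MI R i κ' β δ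
  L κ := ∃ α α', (∃ i, 1 ≤ i ∧ i ≤ 8 ∧ MI R i κ α α') ∧
    ∃ β δ, (∃ i, 1 ≤ i ∧ i ≤ 8 ∧ MI R i α β δ) ∧ ∃ i, 1 ≤ i ∧ i ≤ 8 ∧ MI R i α' β δ

theorem exists_avoid (i : Fin 7 → ℕ) : ∃ j, 1 ≤ j ∧ j ≤ 8 ∧ ∀ s, j ≠ i s := by
  have h : (Finset.univ.image i).card < (Finset.Icc 1 8).card := by
    calc (Finset.univ.image i).card ≤ (Finset.univ : Finset (Fin 7)).card := Finset.card_image_le
      _ < (Finset.Icc 1 8).card := by simp
  obtain ⟨j, hj, hj'⟩ := Finset.exists_mem_notMem_of_card_lt_card h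
  rw [Finset.mem_Icc] at hj
  exact ⟨j, hj.1, hj.2, fun s e => hj' (Finset.mem_image.2 ⟨s, Finset.mem_univ s, e.symm⟩)⟩

theorem FS_ok {R : Str ℕ} (hRo : R.Ok) : (FS R).Ok := by
  refine ⟨fun a a' b d h1 h2 => ⟨b, d, h1, h2⟩, fun v a a' h1 ⟨b, d, h2, h3⟩ =>
    ⟨a, a', h1, b, d, h2, h3⟩, ?_⟩
  rintro u a₁ a₂ ⟨i0, p0, q0, m0⟩ ⟨α, α', ⟨i1, p1, q1, m1⟩, β, δ, ⟨i2, p2, q2, m2⟩, i3, p3, q3, m3⟩
    ⟨γ, γ', ⟨i4, p4, q4, m4⟩, ε, ζ, ⟨i5, p5, q5, m5⟩, i6, p6, q6, m6⟩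
  obtain ⟨j, hj1, hj8, hj⟩ := exists_avoid ![i0, i1, i2, i3, i4, i5, i6]
  have n0 : R.M _ _ _ := m0.proj p0 q0 hj1 hj8 (hj 0)
  have n1 : R.M _ _ _ := m1.proj p1 q1 hj1 hj8 (hj 1)
  have n2 : R.M _ _ _ := m2.proj p2 q2 hj1 hj8 (hj 2)
  have n3 : R.M _ _ _ := m3.proj p3 q3 hj1 hj8 (hj 3)
  have n4 : R.M _ _ _ := m4.proj p4 q4 hj1 hj8 (hj 4)
  have n5 : R.M _ _ _ := m5.proj p5 q5 hj1 hj8 (hj 5)
  have n6 : R.M _ _ _ := m6.proj p6 q6 hj1 hj8 (hj 6)
  exact hRo.ff _ _ _ n0 (hRo.ll _ _ _ n1 (hRo.nn _ _ _ _ n2 n3))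
    (hRo.ll _ _ _ n4 (hRo.nn _ _ _ _ n5 n6))

/-- coordinatewise non-`M` triples do not become `M` triples -/
theorem FS_not {R : Str ℕ} {i : ℕ} (hi1 : 1 ≤ i) (hi8 : i ≤ 8) {a b c a' b' c' a'' b'' c'' : ℕ}
    (h1 : ¬ R.M a a' a'') (h3 : ¬ R.M c c' c'') :
    ¬ (FS R).M (nf i a b c) (nf i a' b' c') (nf i a'' b'' c'') := by
  rintro ⟨k, hk1, hk8, hk⟩
  obtain ⟨j, hj1, hj8, hj⟩ := exists_avoid ![i, k, k, k, k, k, k]
  have hji : j ≠ i := hj 0
  have hjk : j ≠ k := hj 1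
  have := hk.proj hk1 hk8 hj1 hj8 hjk
  rw [vj_nf hi1 hi8 hj1 hj8 hji.symm, vj_nf hi1 hi8 hj1 hj8 hji.symm,
    vj_nf hi1 hi8 hj1 hj8 hji.symm] at this
  split_ifs at this
  · exact h1 this
  · exact h3 this

theorem quasiHM {R : Str ℕ} (hRo : R.Ok) (hR : Rich R) : HasQuasiHagemannMitschke (Ops R) 8 := by
  obtain ⟨f, -, hf⟩ := exists_embedding (FS_ok hRo) hR
  have hop : ∀ i, 1 ≤ i → i ≤ 8 → TermOp (Ops R) 3 fun x => f (nf i (x 0) (x 1) (x 2)) := by
    intro i hi1 hi8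
    rw [termOp_iff]
    refine ⟨fun x y z h => (hf _ _ _).1 ⟨i, hi1, hi8, x 0, x 1, x 2, y 0, y 1, y 2, z 0, z 1, z 2,
      h 0, h 1, h 2, rfl, rfl, rfl⟩, fun x y z h k => ?_⟩
    exact FS_not hi1 hi8 (h 0) (h 2) ((hf _ _ _).2 k)
  refine ⟨fun i x => f (nf i (x 0) (x 1) (x 2)), hop, fun x y => ⟨?_, ?_, ?_⟩⟩
  · simp [nf]
  · intro i hi1 hi8
    show f (nf i x x y) = f (nf (i + 1) x y y)
    congr 1
    unfold nf
    by_cases hxy : x = y
    · subst hxy
      simp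
    · have h8 : i ≠ 8 := by omega
      have h0 : i ≠ 0 := by omega
      simp [hxy, h8, h0]
  · show f (nf 8 x x y) = f (nf 8 y y y)
    congr 1
    simp [nf]

/-! ### Nontriviality -/

/-- the identities of `HasQuasiHagemannMitschke` for `k = 8`, symbols indexed from `0` -/
def qhm : Set (Side (Fin 8) (fun _ => 3) × Side (Fin 8) (fun _ => 3)) :=
  {(.app 0 ![0, 1, 1], .app 0 ![0, 0, 0]), (.app 7 ![0, 0, 1], .app 7 ![1, 1, 1])} ∪
    Set.range fun i : Fin 7 => (.app i.castSucc ![0, 0, 1], .app i.succ ![0, 1, 1])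

theorem qhm_nontrivial : IsNontrivial qhm := by
  intro B hB p h
  obtain ⟨a, b, hab⟩ := exists_pair_ne B
  let val : ℕ → B := fun n => if n = 0 then a else b
  have h0 : val (![0, 1, 1] (p 0)) = val (![0, 0, 0] (p 0)) :=
    h (.app 0 ![0, 1, 1], .app 0 ![0, 0, 0]) (Or.inl (Or.inl rfl)) val
  have h7 : val (![0, 0, 1] (p 7)) = val (![1, 1, 1] (p 7)) :=
    h (.app 7 ![0, 0, 1], .app 7 ![1, 1, 1]) (Or.inl (Or.inr rfl)) val
  have hi : ∀ i : Fin 7, val (![0, 0, 1] (p i.castSucc)) = val (![0, 1, 1] (p i.succ)) :=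
    fun i => h (.app i.castSucc ![0, 0, 1], .app i.succ ![0, 1, 1]) (Or.inr ⟨i, rfl⟩) val
  have v0 : val 0 = a := rfl
  have v1 : val 1 = b := rfl
  have hall : ∀ s : Fin 8, p s = 0 := by
    intro s
    induction s using Fin.induction with
    | zero =>
      generalize p 0 = q at h0
      fin_cases q
      · rfl
      · exact absurd h0.symm hab
      · exact absurd h0.symm hab
    | succ i ih =>
      have := hi i
      rw [ih] at this
      generalize p i.succ = q at this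
      fin_cases q
      · rfl
      · exact absurd this hab
      · exact absurd this hab
  rw [hall 7] at h7
  exact hab h7

theorem satisfiesNontrivial {F : Set (Σ m : ℕ, (Fin m → ℕ) → ℕ)}
    (h : HasQuasiHagemannMitschke F 8) : SatisfiesNontrivial F := by
  obtain ⟨p, hp, hid⟩ := h
  refine ⟨Fin 8, inferInstance, fun _ => 3, qhm, ?_, qhm_nontrivial, fun s => p (s + 1),
    fun s => hp _ (by omega) (by omega), ?_⟩
  · exact (Set.toFinite _).union (Set.finite_range _)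
  · have hv : ∀ (val : ℕ → ℕ) (i j k : ℕ), (fun s => val (![i, j, k] s)) = ![val i, val j, val k] := by
      intro val i j k
      funext s
      fin_cases s <;> rfl
    rintro e ((rfl | rfl) | ⟨i, rfl⟩) val
    · show p 1 (fun s => val (![0, 1, 1] s)) = p 1 (fun s => val (![0, 0, 0] s))
      rw [hv, hv]
      exact (hid _ _).1
    · show p 8 (fun s => val (![0, 0, 1] s)) = p 8 (fun s => val (![1, 1, 1] s))
      rw [hv, hv]
      exact (hid _ _).2.2
    · show p (i + 1) (fun s => val (![0, 0, 1] s)) = p (i + 1 + 1) (fun s => val (![0, 1, 1] s))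
      rw [hv, hv]
      exact (hid _ _).2.1 _ (by omega) (by omega)

end Q112TT
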