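import Mathlib

/-! Structures with a ternary relation `M` and two auxiliary relations `N`, `L`;
amalgamation, and a generic structure on `ℕ`. -/

namespace Q112TT

/-- a ternary, a binary and a unary relation -/
@[ext] structure Str (V : Type) where
  /-- the ternary relation -/
  M : V → V → V → Prop
  /-- the binary relation -/
  N : V → V → Prop
  /-- the unary relation -/
  L : V → Prop

/-- the closure conditions -/
structure Str.Ok {V : Type} (R : Str V) : Prop where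
  nn : ∀ a a' b d, R.M a b d → R.M a' b d → R.N a a'
  ll : ∀ v a a', R.M v a a' → R.N a a' → R.L v
  ff : ∀ u a a', R.M u a a' → R.L a → R.L a' → False

/-- pull back along a map -/
def Str.comap {V W : Type} (R : Str W) (f : V → W) : Str V :=
  ⟨fun x y z => R.M (f x) (f y) (f z), fun x y => R.N (f x) (f y), fun x => R.L (f x)⟩

theorem Str.Ok.comap {V W : Type} {R : Str W} (h : R.Ok) (f : V → W) : (R.comap f).Ok :=
  ⟨fun _ _ _ _ => h.nn _ _ _ _, fun _ _ _ => h.ll _ _ _, fun _ _ _ => h.ff _ _ _⟩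

/-- agreement on a set -/
structure AgreeOn {V : Type} (R R' : Str V) (W : Set V) : Prop where
  M : ∀ x ∈ W, ∀ y ∈ W, ∀ z ∈ W, (R.M x y z ↔ R'.M x y z)
  N : ∀ x ∈ W, ∀ y ∈ W, (R.N x y ↔ R'.N x y)
  L : ∀ x ∈ W, (R.L x ↔ R'.L x)

theorem AgreeOn.refl {V : Type} (R : Str V) (W : Set V) : AgreeOn R R W :=
  ⟨fun _ _ _ _ _ _ => Iff.rfl, fun _ _ _ _ => Iff.rfl, fun _ _ => Iff.rfl⟩

theorem AgreeOn.symm {V : Type} {R R' : Str V} {W : Set V} (h : AgreeOn R R' W) :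
    AgreeOn R' R W :=
  ⟨fun x hx y hy z hz => (h.M x hx y hy z hz).symm, fun x hx y hy => (h.N x hx y hy).symm,
    fun x hx => (h.L x hx).symm⟩

theorem AgreeOn.mono {V : Type} {R R' : Str V} {W W' : Set V} (h : AgreeOn R R' W) (hW : W' ⊆ W) :
    AgreeOn R R' W' :=
  ⟨fun x hx y hy z hz => h.M x (hW hx) y (hW hy) z (hW hz),
    fun x hx y hy => h.N x (hW hx) y (hW hy), fun x hx => h.L x (hW hx)⟩

theorem AgreeOn.trans {V : Type} {R R' R'' : Str V} {W : Set V} (h : AgreeOn R R' W)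
    (h' : AgreeOn R' R'' W) : AgreeOn R R'' W :=
  ⟨fun x hx y hy z hz => (h.M x hx y hy z hz).trans (h'.M x hx y hy z hz),
    fun x hx y hy => (h.N x hx y hy).trans (h'.N x hx y hy),
    fun x hx => (h.L x hx).trans (h'.L x hx)⟩

/-- free amalgamation, all cross pairs related by `N` -/
theorem amalg {V : Type} (R Q : Str V) (hR : R.Ok) (hQ : Q.Ok) (A B : Set V)
    (h : AgreeOn R Q (A ∩ B)) : ∃ P : Str V, P.Ok ∧ AgreeOn R P A ∧ AgreeOn Q P B := by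
  refine ⟨⟨fun x y z => (x ∈ A ∧ y ∈ A ∧ z ∈ A ∧ R.M x y z) ∨ (x ∈ B ∧ y ∈ B ∧ z ∈ B ∧ Q.M x y z),
    fun x y => (x ∈ A ∧ y ∈ A ∧ R.N x y) ∨ (x ∈ B ∧ y ∈ B ∧ Q.N x y) ∨
      (x ∈ A ∧ x ∉ B ∧ y ∈ B ∧ y ∉ A) ∨ (x ∈ B ∧ x ∉ A ∧ y ∈ A ∧ y ∉ B),
    fun x => (x ∈ A ∧ R.L x) ∨ (x ∈ B ∧ Q.L x)⟩, ⟨?_, ?_, ?_⟩, ⟨?_, ?_, ?_⟩, ⟨?_, ?_, ?_⟩⟩
  · rintro a a' b d (⟨ha, hb, hd, h1⟩ | ⟨ha, hb, hd, h1⟩) (⟨ha', hb', hd', h2⟩ | ⟨ha', hb', hd', h2⟩)
    · exact Or.inl ⟨ha, ha', hR.nn _ _ _ _ h1 h2⟩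
    · by_cases haB : a ∈ B
      · exact Or.inr (Or.inl ⟨haB, ha', hQ.nn _ _ _ _
          ((h.M a ⟨ha, haB⟩ b ⟨hb, hb'⟩ d ⟨hd, hd'⟩).1 h1) h2⟩)
      · by_cases haA : a' ∈ A
        · exact Or.inl ⟨ha, haA, hR.nn _ _ _ _ h1
            ((h.M a' ⟨haA, ha'⟩ b ⟨hb, hb'⟩ d ⟨hd, hd'⟩).2 h2)⟩
        · exact Or.inr (Or.inr (Or.inl ⟨ha, haB, ha', haA⟩))
    · by_cases haA : a ∈ A
      · exact Or.inl ⟨haA, ha', hR.nn _ _ _ _
          ((h.M a ⟨haA, ha⟩ b ⟨hb', hb⟩ d ⟨hd', hd⟩).2 h1) h2⟩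
      · by_cases haB : a' ∈ B
        · exact Or.inr (Or.inl ⟨ha, haB, hQ.nn _ _ _ _ h1
            ((h.M a' ⟨ha', haB⟩ b ⟨hb', hb⟩ d ⟨hd', hd⟩).1 h2)⟩)
        · exact Or.inr (Or.inr (Or.inr ⟨ha, haA, ha', haB⟩))
    · exact Or.inr (Or.inl ⟨ha, ha', hQ.nn _ _ _ _ h1 h2⟩)
  · rintro v a a' (⟨hv, ha, ha', h1⟩ | ⟨hv, ha, ha', h1⟩) (⟨k1, k2, h2⟩ | ⟨k1, k2, h2⟩ | ⟨k1, k2, k3, k4⟩ |
      ⟨k1, k2, k3, k4⟩)
    · exact Or.inl ⟨hv, hR.ll _ _ _ h1 h2⟩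
    · exact Or.inl ⟨hv, hR.ll _ _ _ h1 ((h.N a ⟨ha, k1⟩ a' ⟨ha', k2⟩).2 h2)⟩
    · exact absurd ha' k4
    · exact absurd ha k2
    · exact Or.inr ⟨hv, hQ.ll _ _ _ h1 ((h.N a ⟨k1, ha⟩ a' ⟨k2, ha'⟩).1 h2)⟩
    · exact Or.inr ⟨hv, hQ.ll _ _ _ h1 h2⟩
    · exact absurd ha k2
    · exact absurd ha' k4
  · rintro u a a' (⟨hu, ha, ha', h1⟩ | ⟨hu, ha, ha', h1⟩) h2 h3
    · have e2 : R.L a := by
        rcases h2 with ⟨_, h2⟩ | ⟨k, h2⟩
        · exact h2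
        · exact (h.L a ⟨ha, k⟩).2 h2
      have e3 : R.L a' := by
        rcases h3 with ⟨_, h3⟩ | ⟨k, h3⟩
        · exact h3
        · exact (h.L a' ⟨ha', k⟩).2 h3
      exact hR.ff _ _ _ h1 e2 e3
    · have e2 : Q.L a := by
        rcases h2 with ⟨k, h2⟩ | ⟨_, h2⟩
        · exact (h.L a ⟨k, ha⟩).1 h2
        · exact h2
      have e3 : Q.L a' := by
        rcases h3 with ⟨k, h3⟩ | ⟨_, h3⟩
        · exact (h.L a' ⟨k, ha'⟩).1 h3
        · exact h3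
      exact hQ.ff _ _ _ h1 e2 e3
  · intro x hx y hy z hz
    constructor
    · intro k
      exact Or.inl ⟨hx, hy, hz, k⟩
    · rintro (⟨_, _, _, k⟩ | ⟨a, b, c, k⟩)
      · exact k
      · exact (h.M x ⟨hx, a⟩ y ⟨hy, b⟩ z ⟨hz, c⟩).2 k
  · intro x hx y hy
    constructor
    · intro k
      exact Or.inl ⟨hx, hy, k⟩
    · rintro (⟨_, _, k⟩ | ⟨a, b, k⟩ | ⟨_, _, _, k⟩ | ⟨_, k, _, _⟩)
      · exact k
      · exact (h.N x ⟨hx, a⟩ y ⟨hy, b⟩).2 k
      · exact absurd hy k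
      · exact absurd hx k
  · intro x hx
    constructor
    · intro k
      exact Or.inl ⟨hx, k⟩
    · rintro (⟨_, k⟩ | ⟨a, k⟩)
      · exact k
      · exact (h.L x ⟨hx, a⟩).2 k
  · intro x hx y hy z hz
    constructor
    · intro k
      exact Or.inr ⟨hx, hy, hz, k⟩
    · rintro (⟨a, b, c, k⟩ | ⟨_, _, _, k⟩)
      · exact (h.M x ⟨a, hx⟩ y ⟨b, hy⟩ z ⟨c, hz⟩).1 k
      · exact k
  · intro x hx y hy
    constructor
    · intro k
      exact Or.inr (Or.inl ⟨hx, hy, k⟩)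
    · rintro (⟨a, b, k⟩ | ⟨_, _, k⟩ | ⟨_, k, _, _⟩ | ⟨_, _, _, k⟩)
      · exact (h.N x ⟨a, hx⟩ y ⟨b, hy⟩).1 k
      · exact k
      · exact absurd hx k
      · exact absurd hy k
  · intro x hx
    constructor
    · intro k
      exact Or.inr ⟨hx, k⟩
    · rintro (⟨a, k⟩ | ⟨_, k⟩)
      · exact (h.L x ⟨a, hx⟩).1 k
      · exact k

/-- one-point extension types over the finite subset `S` of `ℕ` -/
instance (T : Type) [Finite T] : Finite (Str T) := by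
  have : Function.Injective (fun R : Str T => (R.M, R.N, R.L)) := by
    rintro ⟨a, b, c⟩ ⟨a', b', c'⟩ h
    simp only [Prod.mk.injEq] at h
    obtain ⟨rfl, rfl, rfl⟩ := h
    rfl
  exact Finite.of_injective _ this

/-- a finite stage: the structure is decided below `n` -/
def Stage : Type := {p : ℕ × Str ℕ // p.2.Ok}

instance : Preorder Stage where
  le p q := p.1.1 ≤ q.1.1 ∧ AgreeOn p.1.2 q.1.2 {x | x < p.1.1}
  le_refl p := ⟨le_refl _, AgreeOn.refl _ _⟩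
  le_trans p q r h h' := ⟨h.1.trans h'.1, h.2.trans
    (h'.2.mono fun _ hx => lt_of_lt_of_le hx h.1)⟩

/-- evaluation of an extension type at a new point -/
def ev {S : Finset ℕ} (u : ℕ) (o : Option S) : ℕ := o.elim u fun s => s.1

/-- the stages at which a request is fulfilled -/
def Fulfil (i : Σ S : Finset ℕ, Str (Option S)) : Set Stage :=
  {p | (∀ x ∈ i.1, x < p.1.1) ∧ (i.2.Ok → i.2.comap some = p.1.2.comap (fun s : i.1 => (s : ℕ)) →
    ∃ u < p.1.1, u ∉ i.1 ∧ i.2 = p.1.2.comap (ev u))}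

theorem comap_eq_iff {V W : Type} {R : Str W} {Q : Str V} {f : V → W} :
    Q = R.comap f ↔ (∀ x y z, Q.M x y z ↔ R.M (f x) (f y) (f z)) ∧
      (∀ x y, Q.N x y ↔ R.N (f x) (f y)) ∧ ∀ x, Q.L x ↔ R.L (f x) := by
  constructor
  · rintro rfl
    exact ⟨fun _ _ _ => Iff.rfl, fun _ _ => Iff.rfl, fun _ => Iff.rfl⟩
  · rintro ⟨h1, h2, h3⟩
    ext
    · exact h1 _ _ _
    · exact h2 _ _
    · exact h3 _

theorem fulfil_cofinal (i : Σ S : Finset ℕ, Str (Option S)) : IsCofinal (Fulfil i) := by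
  classical
  obtain ⟨S, Q⟩ := i
  intro p
  obtain ⟨⟨m, R⟩, hR⟩ := p
  simp only at hR
  -- first make room for `S`
  obtain ⟨n, hmn, hn⟩ : ∃ n, m ≤ n ∧ ∀ x ∈ S, x < n := by
    refine ⟨max m (S.sup id + 1), le_max_left _ _, fun x hx => ?_⟩
    have : x ≤ S.sup id := Finset.le_sup (f := id) hx
    omega
  by_cases hc : Q.Ok ∧ Q.comap some = R.comap (fun s : S => (s : ℕ))
  · obtain ⟨hQ, hc⟩ := hc
    rw [comap_eq_iff] at hc
    obtain ⟨c1, c2, c3⟩ := hc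
    let g : ℕ → Option S := fun x => if hx : x ∈ S then some ⟨x, hx⟩ else none
    have hgS : ∀ x (hx : x ∈ S), g x = some ⟨x, hx⟩ := fun x hx => dif_pos hx
    have hnS : n ∉ S := fun h => lt_irrefl _ (hn n h)
    have hgn : g n = none := dif_neg hnS
    have hag : AgreeOn R (Q.comap g) ({x | x < n} ∩ {x | x ∈ insert n S}) := by
      have key : ∀ x ∈ ({x | x < n} ∩ {x | x ∈ insert n S} : Set ℕ), x ∈ S := by
        rintro x ⟨h1, h2⟩
        simp only [Set.mem_setOf_eq, Finset.mem_insert] at h1 h2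
        rcases h2 with h2 | h2
        · omega
        · exact h2
      refine ⟨fun x hx y hy z hz => ?_, fun x hx y hy => ?_, fun x hx => ?_⟩
      · show _ ↔ Q.M (g x) (g y) (g z)
        rw [hgS x (key x hx), hgS y (key y hy), hgS z (key z hz)]
        exact (c1 ⟨x, key x hx⟩ ⟨y, key y hy⟩ ⟨z, key z hz⟩).symm
      · show _ ↔ Q.N (g x) (g y)
        rw [hgS x (key x hx), hgS y (key y hy)]
        exact (c2 ⟨x, key x hx⟩ ⟨y, key y hy⟩).symm
      · show _ ↔ Q.L (g x)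
        rw [hgS x (key x hx)]
        exact (c3 ⟨x, key x hx⟩).symm
    obtain ⟨P, hP, hP1, hP2⟩ := amalg R (Q.comap g) hR (hQ.comap g) _ _ hag
    have hge : ∀ o : Option S, g (ev n o) = o := by
      rintro (_ | ⟨s, hs⟩)
      · exact hgn
      · exact hgS s hs
    have hmem : ∀ o : Option S, ev n o ∈ {x | x ∈ insert n S} := by
      rintro (_ | ⟨s, hs⟩)
      · exact Finset.mem_insert_self _ _
      · exact Finset.mem_insert_of_mem hs
    refine ⟨⟨⟨n + 1, P⟩, hP⟩, ⟨fun x hx => Nat.lt_succ_of_lt (hn x hx), fun _ _ =>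
      ⟨n, Nat.lt_succ_self n, hnS, ?_⟩⟩, ?_, ?_⟩
    · rw [comap_eq_iff]
      refine ⟨fun x y z => ?_, fun x y => ?_, fun x => ?_⟩
      · have := hP2.M _ (hmem x) _ (hmem y) _ (hmem z)
        rw [← this]
        show _ ↔ Q.M (g _) (g _) (g _)
        rw [hge, hge, hge]
      · have := hP2.N _ (hmem x) _ (hmem y)
        rw [← this]
        show _ ↔ Q.N (g _) (g _)
        rw [hge, hge]
      · have := hP2.L _ (hmem x)
        rw [← this]
        show _ ↔ Q.L (g _)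
        rw [hge]
    · show m ≤ n + 1
      omega
    · exact hP1.mono fun x hx => lt_of_lt_of_le hx hmn
  · refine ⟨⟨⟨n, R⟩, hR⟩, ⟨hn, fun h1 h2 => absurd ⟨h1, h2⟩ hc⟩, hmn, AgreeOn.refl _ _⟩

/-- every one-point extension of a finite subset is realized -/
def Rich (R : Str ℕ) : Prop :=
  ∀ (S : Finset ℕ) (Q : Str (Option S)), Q.Ok →
    Q.comap some = R.comap (fun s : S => (s : ℕ)) → ∃ u, u ∉ S ∧ Q = R.comap (ev u)

theorem exists_rich : ∃ R : Str ℕ, R.Ok ∧ Rich R := by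
  classical
  have hemp : (⟨fun _ _ _ => False, fun _ _ => False, fun _ => False⟩ : Str ℕ).Ok :=
    ⟨fun _ _ _ _ h => h.elim, fun _ _ _ h => h.elim, fun _ _ _ h => h.elim⟩
  let p0 : Stage := ⟨⟨0, _⟩, hemp⟩
  letI : Encodable (Σ S : Finset ℕ, Str (Option S)) := by
    haveI : Countable (Σ S : Finset ℕ, Str (Option S)) := inferInstance
    exact Encodable.ofCountable _
  let 𝒟 : (Σ S : Finset ℕ, Str (Option S)) → Order.Cofinal Stage := fun i => ⟨Fulfil i, fulfil_cofinal i⟩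
  let s : ℕ → Stage := Order.sequenceOfCofinals p0 𝒟
  have hmono : Monotone s := Order.sequenceOfCofinals.monotone p0 𝒟
  have hful : ∀ i, ∃ k, s k ∈ Fulfil i := fun i => ⟨_, Order.sequenceOfCofinals.encode_mem p0 𝒟 i⟩
  -- every number is eventually decided
  have hdec : ∀ x, ∃ k, x < (s k).1.1 := by
    intro x
    obtain ⟨k, hk⟩ := hful ⟨{x}, ⟨fun _ _ _ => False, fun _ _ => False, fun _ => False⟩⟩
    exact ⟨k, hk.1 x (Finset.mem_singleton_self x)⟩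
  have hdecF : ∀ T : Finset ℕ, ∃ k, ∀ x ∈ T, x < (s k).1.1 := by
    intro T
    obtain ⟨k, hk⟩ := hful ⟨T, ⟨fun _ _ _ => False, fun _ _ => False, fun _ => False⟩⟩
    exact ⟨k, hk.1⟩
  let R : Str ℕ := ⟨fun x y z => ∃ k, x < (s k).1.1 ∧ y < (s k).1.1 ∧ z < (s k).1.1 ∧ (s k).1.2.M x y z,
    fun x y => ∃ k, x < (s k).1.1 ∧ y < (s k).1.1 ∧ (s k).1.2.N x y,
    fun x => ∃ k, x < (s k).1.1 ∧ (s k).1.2.L x⟩
  have hle : ∀ {a b}, a ≤ b → (s a).1.1 ≤ (s b).1.1 ∧ AgreeOn (s a).1.2 (s b).1.2 {x | x < (s a).1.1} :=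
    fun h => hmono h
  have hR : ∀ k, AgreeOn (s k).1.2 R {x | x < (s k).1.1} := by
    intro k
    refine ⟨fun x hx y hy z hz => ⟨fun h => ⟨k, hx, hy, hz, h⟩, ?_⟩,
      fun x hx y hy => ⟨fun h => ⟨k, hx, hy, h⟩, ?_⟩, fun x hx => ⟨fun h => ⟨k, hx, h⟩, ?_⟩⟩
    · rintro ⟨j, hx', hy', hz', h⟩
      rcases le_total k j with hkj | hkj
      · exact ((hle hkj).2.M x hx y hy z hz).2 h
      · exact ((hle hkj).2.M x hx' y hy' z hz').1 h
    · rintro ⟨j, hx', hy', h⟩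
      rcases le_total k j with hkj | hkj
      · exact ((hle hkj).2.N x hx y hy).2 h
      · exact ((hle hkj).2.N x hx' y hy').1 h
    · rintro ⟨j, hx', h⟩
      rcases le_total k j with hkj | hkj
      · exact ((hle hkj).2.L x hx).2 h
      · exact ((hle hkj).2.L x hx').1 h
  refine ⟨R, ⟨?_, ?_, ?_⟩, ?_⟩
  · intro a a' b d h1 h2
    obtain ⟨k, hk⟩ := hdecF {a, a', b, d}
    simp only [Finset.mem_insert, Finset.mem_singleton, forall_eq_or_imp, forall_eq] at hk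
    obtain ⟨ka, ka', kb, kd⟩ := hk
    have e1 := ((hR k).M a ka b kb d kd).2 h1
    have e2 := ((hR k).M a' ka' b kb d kd).2 h2
    exact ((hR k).N a ka a' ka').1 ((s k).2.nn _ _ _ _ e1 e2)
  · intro v a a' h1 h2
    obtain ⟨k, hk⟩ := hdecF {v, a, a'}
    simp only [Finset.mem_insert, Finset.mem_singleton, forall_eq_or_imp, forall_eq] at hk
    obtain ⟨kv, ka, ka'⟩ := hk
    have e1 := ((hR k).M v kv a ka a' ka').2 h1
    have e2 := ((hR k).N a ka a' ka').2 h2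
    exact ((hR k).L v kv).1 ((s k).2.ll _ _ _ e1 e2)
  · intro v a a' h1 h2 h3
    obtain ⟨k, hk⟩ := hdecF {v, a, a'}
    simp only [Finset.mem_insert, Finset.mem_singleton, forall_eq_or_imp, forall_eq] at hk
    obtain ⟨kv, ka, ka'⟩ := hk
    have e1 := ((hR k).M v kv a ka a' ka').2 h1
    have e2 := ((hR k).L a ka).2 h2
    have e3 := ((hR k).L a' ka').2 h3
    exact (s k).2.ff _ _ _ e1 e2 e3
  · intro S Q hQ hc
    obtain ⟨k, hk1, hk2⟩ := hful ⟨S, Q⟩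
    simp only at hk1 hk2
    have hc' : Q.comap some = (s k).1.2.comap (fun x : S => (x : ℕ)) := by
      rw [comap_eq_iff] at hc ⊢
      obtain ⟨c1, c2, c3⟩ := hc
      refine ⟨fun x y z => (c1 x y z).trans ?_, fun x y => (c2 x y).trans ?_, fun x => (c3 x).trans ?_⟩
      · exact ((hR k).M _ (hk1 _ x.2) _ (hk1 _ y.2) _ (hk1 _ z.2)).symm
      · exact ((hR k).N _ (hk1 _ x.2) _ (hk1 _ y.2)).symm
      · exact ((hR k).L _ (hk1 _ x.2)).symm
    obtain ⟨u, hu, huS, h⟩ := hk2 hQ hc'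
    refine ⟨u, huS, ?_⟩
    have hev : ∀ o : Option S, ev u o ∈ {x | x < (s k).1.1} := by
      rintro (_ | ⟨x, hx⟩)
      · exact hu
      · exact hk1 x hx
    rw [comap_eq_iff] at h ⊢
    obtain ⟨c1, c2, c3⟩ := h
    refine ⟨fun x y z => (c1 x y z).trans ?_, fun x y => (c2 x y).trans ?_, fun x => (c3 x).trans ?_⟩
    · exact (hR k).M _ (hev x) _ (hev y) _ (hev z)
    · exact (hR k).N _ (hev x) _ (hev y)
    · exact (hR k).L _ (hev x)

end Q112TT
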